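import Mathlib
import Pool.Agent.Q307.Osc.Defs
import Pool.Agent.Q307.Osc.Upper
import Pool.Agent.Q307.Osc.Lower

/-!
# The oscillation reaping number can be smaller than the covering number of the null ideal

Add `λ` random reals to any ground model, where `λ` is larger than the continuum `𝔠` of the ground
model. The infinite sets of the ground model witness that the oscillation reaping number is at
most `𝔠`: if `E_n` is the event that `n` belongs to the named set `S`, then by Komlós' theorem some
subsequence `E_{k(i)}` has almost surely converging relative frequencies, so `S` has a relative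
density in the ground model set `{k(i) : i < ω}`. On the other hand fewer than `λ` null sets do
not cover Cantor space: their codes do not depend on all of the random reals, and the others are
outside of them.
-/

set_option autoImplicit false

namespace Pool.Agent.Results.MP_177d78_lc.BelowCovNull

open Cardinal Pool.Agent.TH773.PSet Pool.Agent.Q307.RF Pool.Agent.Q307.Osc

/-- Let `I` have more than continuum many elements. Every condition of random forcing `𝔹(I)`
forces: all cardinals are preserved; the oscillation reaping number is at most `κ = 𝔠` (the
continuum of the ground model); and no `μ` null sets with `μ < |I|`, in particular no `κ` null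
sets, cover Cantor space. So it is forced that `𝔯_osc ≤ κ < cov(𝓝)`. -/
theorem result (I : Type) (hI : 𝔠 < #I) : Nonempty (Random I) ∧ ∀ p : Random I,
    p ∈ CardinalsPreserved.{0, 0} (Random I) ∧
      p ∈ OscLe (Random I) (𝔠 : Cardinal.{0}).out ∧
        p ∈ fnot (CovNullLe (Random I) (𝔠 : Cardinal.{0}).out) ∧
          ∀ μ : Cardinal.{0}, μ < #I → p ∈ fnot (CovNullLe (Random I) μ.out) := by
  have hI' : ℵ₀ < #I := aleph0_lt_continuum.trans hI
  refine ⟨⟨⟨Set.univ, MeasurableSet.univ, ?_⟩⟩, fun p =>
    ⟨cardinalsPreserved_of_ccc ccc_cond p, oscLe p, ?_, fun μ hμ => ?_⟩⟩
  · rw [MeasureTheory.measure_univ]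
    exact one_ne_zero
  · exact not_covNullLe (by rwa [mk_out]) hI' p
  · exact not_covNullLe (by rwa [mk_out]) hI' p

end Pool.Agent.Results.MP_177d78_lc.BelowCovNull
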